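import Pool.Agent.P.MP_ac93c9_an.Fam
import Pool.Agent.P.MP_ac93c9_an.Entropy
import Pool.Agent.P.MP_ac93c9_an.Compact
import Pool.Agent.P.MP_ac93c9_an.Congr

namespace Pool.Agent.Results.MP_ac93c9_an.Full

open Filter Topology MeasureTheory Pool.Agent.P.MP_ac93c9_an

theorem result {X : Type*} [MetricSpace X] [CompleteSpace X] [TopologicalSpace.SeparableSpace X]
    [MeasurableSpace X] [BorelSpace X] (μ : Measure X) [IsProbabilityMeasure μ]
    [μ.IsOpenPosMeasure] (T : X → X) (hT : Continuous T) (hTμ : MeasurePreserving T μ μ)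
    (f : X → ℕ) (hf : Continuous f) (hf2 : ∀ y, 2 ≤ f y)
    (htop : ∀ U : Set X, IsOpen U ↔ TopologicalSpace.GenerateOpen
      {V | ∃ (n : ℕ) (A : Set ℕ), V = T^[n] ⁻¹' (f ⁻¹' A)} U)
    (x₀ : X)
    (hgen : (∀ g : X → ℝ, Continuous g → Integrable g μ →
        Tendsto (fun N : ℕ => (∑ n ∈ Finset.Icc 1 N, g (T^[n] x₀)) / N) atTop
          (𝓝 (∫ y, g y ∂μ))) ∨
      ((∀ g : X → ℝ, Continuous g → (∃ C, ∀ y, |g y| ≤ C) →
        Tendsto (fun N : ℕ => (∑ n ∈ Finset.Icc 1 N, g (T^[n] x₀)) / N) atTop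
          (𝓝 (∫ y, g y ∂μ))) ∧
        Summable fun a : ℕ => Real.negMulLog (μ.real (f ⁻¹' {a}))))
    (hent : 0 < ksEntropy μ T) (q : ℕ → ℕ) (hq : ∀ n, 1 ≤ n → q n = f (T^[n] x₀)) :
    dimH (distNormalSet q \ normalSet q) = 1 ∧
      IsD2Pi03Complete
        ((Subtype.val : Set.Ico (0 : ℝ) 1 → ℝ) ⁻¹' (distNormalSet q \ normalSet q)) := by
  rw [distNormalSet_congr hq, normalSet_congr hq]
  have S : Sys μ T f := ⟨hT, hf, hTμ, hf2⟩
  have hind : IsInducing fun y n => f (T^[n] y) := by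
    refine ⟨le_antisymm (continuous_iff_le_induced.1
      (continuous_pi fun n => hf.comp (hT.iterate n))) fun U hU => ?_⟩
    have h1 : TopologicalSpace.induced (fun y n => f (T^[n] y)) inferInstance ≤
        TopologicalSpace.generateFrom {V | ∃ (n : ℕ) (A : Set ℕ), V = T^[n] ⁻¹' (f ⁻¹' A)} := by
      refine le_generateFrom ?_
      rintro _ ⟨n, A, rfl⟩
      exact ⟨(fun w : ℕ → ℕ => w n) ⁻¹' A, (isOpen_discrete A).preimage (continuous_apply n), rfl⟩
    exact h1 U ((htop U).1 hU)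
  have key : (∀ g : X → ℝ, Continuous g → (∃ C, ∀ y, |g y| ≤ C) →
      Tendsto (fun N : ℕ => (∑ n ∈ Finset.Icc 1 N, g (T^[n] x₀)) / N) atTop
        (𝓝 (∫ y, g y ∂μ))) ∧
      Summable fun a : ℕ => Real.negMulLog (μ.real (f ⁻¹' {a})) := by
    rcases hgen with h | h
    · refine ⟨fun g hg ⟨C, hC⟩ => h g hg
        (Integrable.of_bound hg.measurable.aestronglyMeasurable C (Eventually.of_forall hC)), ?_⟩
      refine summable_of_ne_finset_zero (s := (S.finite_range hind h).toFinset) fun a ha => ?_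
      have : f ⁻¹' {a} = ∅ := by
        ext y
        simp only [Set.mem_preimage, Set.mem_singleton_iff, Set.mem_empty_iff_false, iff_false]
        rintro rfl
        exact ha (by simp)
      simp [this]
    · exact h
  exact main_of_family (fun n => hf2 _) fun τ h0 h1 =>
    S.family (S.unpred hind key.2 hent) key.1 h0 h1

end Pool.Agent.Results.MP_ac93c9_an.Full
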